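import Mathlib
import Pool.Agent.SWT65.Ops
import Pool.Agent.SWT80.Ops3

/-!
# The IHX triple at the edge between a vertex and the vertex of a new leg
-/

set_option autoImplicit false

namespace Pool.Agent.SWT41

open Equiv Pool.Agent.SWT80 Pool.Agent.SWT65

variable {V W M : Type} {n : ℕ}

/-! ### The edges of `add` -/

/-- The edges of the graph and the two free edges `{0, 1}` and `{2, 3}`. -/
def be (G : Gr V n) : Perm (V ⊕ Fin 4) := Equiv.sumCongr G.e (swap 0 1 * swap 2 3)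

open Classical in
/-- The exchange of `h` and the half-edge `1`. -/
noncomputable def s1 (h : V) : Perm (V ⊕ Fin 4) := swap (Sum.inl h) (Sum.inr 1)

open Classical in
/-- The exchange of `h` and the half-edge `0`. -/
noncomputable def s0 (h : V) : Perm (V ⊕ Fin 4) := swap (Sum.inl h) (Sum.inr 0)

section

open Classical

theorem s1_self (h : V) : s1 h * s1 h = 1 := swap_mul_self _ _

theorem s0_self (h : V) : s0 h * s0 h = 1 := swap_mul_self _ _

theorem s1_l (h : V) : s1 h (Sum.inl h) = Sum.inr 1 := swap_apply_left _ _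

theorem s1_1 (h : V) : s1 h (Sum.inr 1) = Sum.inl h := swap_apply_right _ _

theorem s1_o {h v : V} (hv : v ≠ h) : s1 h (Sum.inl v) = Sum.inl v :=
  swap_apply_of_ne_of_ne (fun h1 => hv (Sum.inl.inj h1)) Sum.inl_ne_inr

theorem s1_r (h : V) {t : Fin 4} (ht : t ≠ 1) : s1 h (Sum.inr t) = Sum.inr t :=
  swap_apply_of_ne_of_ne Sum.inr_ne_inl fun h1 => ht (Sum.inr.inj h1)

theorem s0_l (h : V) : s0 h (Sum.inl h) = Sum.inr 0 := swap_apply_left _ _

theorem s0_0 (h : V) : s0 h (Sum.inr 0) = Sum.inl h := swap_apply_right _ _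

theorem s0_o {h v : V} (hv : v ≠ h) : s0 h (Sum.inl v) = Sum.inl v :=
  swap_apply_of_ne_of_ne (fun h1 => hv (Sum.inl.inj h1)) Sum.inl_ne_inr

theorem s0_r (h : V) {t : Fin 4} (ht : t ≠ 0) : s0 h (Sum.inr t) = Sum.inr t :=
  swap_apply_of_ne_of_ne Sum.inr_ne_inl fun h1 => ht (Sum.inr.inj h1)

end

theorem be_l (G : Gr V n) (v : V) : be G (Sum.inl v) = Sum.inl (G.e v) := rfl

theorem be_0 (G : Gr V n) : be G (Sum.inr 0) = Sum.inr 1 := rfl

theorem be_1 (G : Gr V n) : be G (Sum.inr 1) = Sum.inr 0 := rfl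

theorem be_2 (G : Gr V n) : be G (Sum.inr 2) = Sum.inr 3 := rfl

theorem be_3 (G : Gr V n) : be G (Sum.inr 3) = Sum.inr 2 := rfl

section

variable (G : Gr V n) (j : Fin (n + 1)) (h : V)

theorem add_e_apply (w : V ⊕ Fin 4) : (add G j h).e w = addE G h w := rfl

theorem add_e_l : (add G j h).e (Sum.inl h) = Sum.inr 0 := addE_h G h

theorem add_e_el : (add G j h).e (Sum.inl (G.e h)) = Sum.inr 1 := addE_eh G h

theorem add_e_o {v : V} (h1 : v ≠ h) (h2 : v ≠ G.e h) :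
    (add G j h).e (Sum.inl v) = Sum.inl (G.e v) := addE_o G h1 h2

theorem add_e_0 : (add G j h).e (Sum.inr 0) = Sum.inl h := rfl

theorem add_e_1 : (add G j h).e (Sum.inr 1) = Sum.inl (G.e h) := rfl

theorem add_e_2 : (add G j h).e (Sum.inr 2) = Sum.inr 3 := rfl

theorem add_e_3 : (add G j h).e (Sum.inr 3) = Sum.inr 2 := rfl

theorem add_r_l (v : V) : (add G j h).r (Sum.inl v) = Sum.inl (G.r v) := rfl

theorem add_r_0 : (add G j h).r (Sum.inr 0) = Sum.inr 1 := rfl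

theorem add_r_1 : (add G j h).r (Sum.inr 1) = Sum.inr 2 := rfl

theorem add_r_2 : (add G j h).r (Sum.inr 2) = Sum.inr 0 := rfl

theorem add_r_3 : (add G j h).r (Sum.inr 3) = Sum.inr 3 := rfl

/-- The edges of `add`. -/
theorem add_e : (add G j h).e = s1 h * be G * s1 h := by
  refine Equiv.ext fun w => ?_
  rw [Perm.mul_apply, Perm.mul_apply]
  rcases w with v | t
  · by_cases h1 : v = h
    · subst h1
      rw [add_e_l, s1_l, be_1, s1_r _ (by decide)]
    by_cases h2 : v = G.e h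
    · subst h2
      rw [add_e_el, s1_o h1, be_l, G.e2, s1_l]
    rw [add_e_o G j h h1 h2, s1_o h1, be_l, s1_o]
    intro h3
    apply h2
    rw [← h3, G.e2]
  · fin_cases t
    · show (add G j h).e (Sum.inr 0) = s1 h (be G (s1 h (Sum.inr 0)))
      rw [add_e_0, s1_r _ (by decide), be_0, s1_1]
    · show (add G j h).e (Sum.inr 1) = s1 h (be G (s1 h (Sum.inr 1)))
      rw [add_e_1, s1_1, be_l, s1_o (G.e1 h)]
    · show (add G j h).e (Sum.inr 2) = s1 h (be G (s1 h (Sum.inr 2)))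
      rw [add_e_2, s1_r _ (by decide), be_2, s1_r _ (by decide)]
    · show (add G j h).e (Sum.inr 3) = s1 h (be G (s1 h (Sum.inr 3)))
      rw [add_e_3, s1_r _ (by decide), be_3, s1_r _ (by decide)]

/-- The edges of `add` at the other half of the edge. -/
theorem add_ee : (add G j (G.e h)).e = s0 h * be G * s0 h := by
  refine Equiv.ext fun w => ?_
  rw [Perm.mul_apply, Perm.mul_apply]
  rcases w with v | t
  · by_cases h1 : v = h
    · subst h1
      have h2 := add_e_el G j (G.e v)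
      rw [G.e2] at h2
      rw [h2, s0_l, be_0, s0_r _ (by decide)]
    by_cases h2 : v = G.e h
    · subst h2
      rw [add_e_l, s0_o h1, be_l, G.e2, s0_l]
    rw [add_e_o G j _ h2 (by rw [G.e2]; exact h1), s0_o h1, be_l, s0_o]
    intro h3
    apply h2
    rw [← h3, G.e2]
  · fin_cases t
    · show (add G j (G.e h)).e (Sum.inr 0) = s0 h (be G (s0 h (Sum.inr 0)))
      rw [add_e_0, s0_0, be_l, s0_o (G.e1 h)]
    · show (add G j (G.e h)).e (Sum.inr 1) = s0 h (be G (s0 h (Sum.inr 1)))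
      rw [add_e_1, G.e2, s0_r _ (by decide), be_1, s0_0]
    · show (add G j (G.e h)).e (Sum.inr 2) = s0 h (be G (s0 h (Sum.inr 2)))
      rw [add_e_2, s0_r _ (by decide), be_2, s0_r _ (by decide)]
    · show (add G j (G.e h)).e (Sum.inr 3) = s0 h (be G (s0 h (Sum.inr 3)))
      rw [add_e_3, s0_r _ (by decide), be_3, s0_r _ (by decide)]

/-- The legs of `add`. -/
theorem add_leg_cases (l : Fin (n + 1)) :
    (add G j h).leg l = Sum.inr 3 ∨ ∃ i, (add G j h).leg l = Sum.inl (G.leg i) := by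
  rcases Fin.eq_self_or_eq_succAbove j l with rfl | ⟨i, rfl⟩
  · exact Or.inl (addL_new G l)
  · exact Or.inr ⟨i, addL_old G j i⟩

theorem add_leg (h' : V) : (add G j h).leg = (add G j h').leg := rfl

/-! ### Reversal of the vertex of the new leg -/

theorem vt_0 (t : Fin 4) (ht : t ≠ 3) : (add G j h).vt (Sum.inr 0) (Sum.inr t) := by
  fin_cases t
  · exact Or.inl rfl
  · exact Or.inr (Or.inl rfl)
  · exact Or.inr (Or.inr rfl)
  · exact absurd rfl ht

theorem not_vt_3 : ¬ (add G j h).vt (Sum.inr 0) (Sum.inr 3) := by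
  rintro (h1 | h1 | h1)
  · exact absurd (Sum.inr.inj h1) (by decide)
  · have h2 : (Sum.inr 3 : V ⊕ Fin 4) = Sum.inr 1 := h1
    exact absurd (Sum.inr.inj h2) (by decide)
  · have h2 : (Sum.inr 3 : V ⊕ Fin 4) = Sum.inr 2 := h1
    exact absurd (Sum.inr.inj h2) (by decide)

theorem not_vt_l (v : V) : ¬ (add G j h).vt (Sum.inr 0) (Sum.inl v) := by
  rintro (h1 | h1 | h1)
  · cases h1
  · have h2 : (Sum.inl v : V ⊕ Fin 4) = Sum.inr 1 := h1
    cases h2
  · have h2 : (Sum.inl v : V ⊕ Fin 4) = Sum.inr 2 := h1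
    cases h2

theorem fl_l (v : V) : ((add G j h).flip (Sum.inr 0)).r (Sum.inl v) = Sum.inl (G.r v) := by
  rw [Gr.flip_r, Gr.fr_neg (not_vt_l G j h v)]
  rfl

theorem fl_0 : ((add G j h).flip (Sum.inr 0)).r (Sum.inr 0) = Sum.inr 2 := by
  rw [Gr.flip_r, Gr.fr_pos (vt_0 G j h 0 (by decide))]
  rfl

theorem fl_1 : ((add G j h).flip (Sum.inr 0)).r (Sum.inr 1) = Sum.inr 0 := by
  rw [Gr.flip_r, Gr.fr_pos (vt_0 G j h 1 (by decide))]
  rfl

theorem fl_2 : ((add G j h).flip (Sum.inr 0)).r (Sum.inr 2) = Sum.inr 1 := by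
  rw [Gr.flip_r, Gr.fr_pos (vt_0 G j h 2 (by decide))]
  rfl

theorem fl_3 : ((add G j h).flip (Sum.inr 0)).r (Sum.inr 3) = Sum.inr 3 := by
  rw [Gr.flip_r, Gr.fr_neg (not_vt_3 G j h)]
  rfl

end

/-- Reversal of an old vertex, when the cyclic orders are old ones on the old half-edges. -/
theorem flu {G : Gr V n} {m : ℕ} {A : Gr (V ⊕ Fin 4) m}
    (hA : ∀ v, A.r (Sum.inl v) = Sum.inl (G.r v)) (u : V) :
    (∀ v, ¬ G.vt u v → (A.flip (Sum.inl u)).r (Sum.inl v) = Sum.inl (G.r v)) ∧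
      (A.flip (Sum.inl u)).r (Sum.inl u) = Sum.inl (G.r (G.r u)) ∧
      (A.flip (Sum.inl u)).r (Sum.inl (G.r u)) = Sum.inl u ∧
      (A.flip (Sum.inl u)).r (Sum.inl (G.r (G.r u))) = Sum.inl (G.r u) ∧
      ∀ t, (A.flip (Sum.inl u)).r (Sum.inr t) = A.r (Sum.inr t) := by
  have h0 : ∀ v, A.vt (Sum.inl u) (Sum.inl v) ↔ G.vt u v := by
    intro v
    unfold Gr.vt
    rw [hA, hA, Sum.inl_injective.eq_iff, Sum.inl_injective.eq_iff, Sum.inl_injective.eq_iff]
  refine ⟨fun v hv => ?_, ?_, ?_, ?_, fun t => ?_⟩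
  · rw [Gr.flip_r, Gr.fr_neg (fun h' => hv ((h0 v).1 h')), hA]
  · rw [Gr.flip_r, Gr.fr_pos ((h0 u).2 (G.vt_self u)), hA, hA]
  · rw [Gr.flip_r, Gr.fr_pos ((h0 _).2 (G.vt_r1 u)), hA, hA, G.r3]
  · rw [Gr.flip_r, Gr.fr_pos ((h0 _).2 (G.vt_r2 u)), hA, hA, G.r3]
  · rw [Gr.flip_r, Gr.fr_neg]
    rintro (h1 | h1 | h1)
    · cases h1
    · rw [hA] at h1
      cases h1
    · rw [hA, hA] at h1
      cases h1

end Pool.Agent.SWT41
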