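import Mathlib
import Pool.Agent.SWT41.AddLoc

/-!
# The IHX triple at the edge between a vertex and the vertex of a new leg, continued
-/

set_option autoImplicit false

namespace Pool.Agent.SWT41

open Equiv Pool.Agent.SWT80 Pool.Agent.SWT65

variable {V W M : Type} {n : ℕ}

/-- The renaming of the half-edges, if the new vertex is at the end `0` of the edge. -/
noncomputable def p1 (u v : V) : Perm (V ⊕ Fin 4) := s1 u * s1 v

/-- The renaming of the half-edges, if the new vertex is at the end `1` of the edge. -/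
noncomputable def p0 (u v : V) : Perm (V ⊕ Fin 4) := s0 u * s1 v

section

variable {u v : V} (huv : v ≠ u)

set_option linter.unusedSectionVars false

include huv

theorem p1_u : p1 u v (Sum.inl u) = Sum.inr 1 := by
  unfold p1
  rw [Perm.mul_apply, s1_o huv.symm, s1_l]

theorem p1_v : p1 u v (Sum.inl v) = Sum.inl u := by
  unfold p1
  rw [Perm.mul_apply, s1_l, s1_1]

theorem p1_1 : p1 u v (Sum.inr 1) = Sum.inl v := by
  unfold p1
  rw [Perm.mul_apply, s1_1, s1_o huv]

theorem p1_o {w : V} (h1 : w ≠ u) (h2 : w ≠ v) : p1 u v (Sum.inl w) = Sum.inl w := by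
  unfold p1
  rw [Perm.mul_apply, s1_o h2, s1_o h1]

theorem p1_r {t : Fin 4} (ht : t ≠ 1) : p1 u v (Sum.inr t) = Sum.inr t := by
  unfold p1
  rw [Perm.mul_apply, s1_r _ ht, s1_r _ ht]

theorem p0_u : p0 u v (Sum.inl u) = Sum.inr 0 := by
  unfold p0
  rw [Perm.mul_apply, s1_o huv.symm, s0_l]

theorem p0_v : p0 u v (Sum.inl v) = Sum.inr 1 := by
  unfold p0
  rw [Perm.mul_apply, s1_l, s0_r _ (by decide)]

theorem p0_1 : p0 u v (Sum.inr 1) = Sum.inl v := by
  unfold p0
  rw [Perm.mul_apply, s1_1, s0_o huv]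

theorem p0_0 : p0 u v (Sum.inr 0) = Sum.inl u := by
  unfold p0
  rw [Perm.mul_apply, s1_r _ (by decide), s0_0]

theorem p0_o {w : V} (h1 : w ≠ u) (h2 : w ≠ v) : p0 u v (Sum.inl w) = Sum.inl w := by
  unfold p0
  rw [Perm.mul_apply, s1_o h2, s0_o h1]

theorem p0_r {t : Fin 4} (h0 : t ≠ 0) (h1 : t ≠ 1) : p0 u v (Sum.inr t) = Sum.inr t := by
  unfold p0
  rw [Perm.mul_apply, s1_r _ h1, s0_r _ h0]

end

section

variable (G : Gr V n) (j : Fin (n + 1)) (u v : V)

theorem p1_e : (add G j u).e * p1 u v = p1 u v * (add G j v).e := by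
  unfold p1
  rw [add_e, add_e]
  calc s1 u * be G * s1 u * (s1 u * s1 v) = s1 u * be G * (s1 u * s1 u) * s1 v := by
        simp only [mul_assoc]
    _ = s1 u * (s1 v * s1 v) * be G * s1 v := by rw [s1_self, s1_self, mul_one, mul_one]
    _ = _ := by simp only [mul_assoc]

theorem p0_e : (add G j (G.e u)).e * p0 u v = p0 u v * (add G j v).e := by
  unfold p0
  rw [add_ee, add_e]
  calc s0 u * be G * s0 u * (s0 u * s1 v) = s0 u * be G * (s0 u * s0 u) * s1 v := by
        simp only [mul_assoc]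
    _ = s0 u * (s1 v * s1 v) * be G * s1 v := by rw [s0_self, s1_self, mul_one, mul_one]
    _ = _ := by simp only [mul_assoc]

end

section

variable {G : Gr V n} {j : Fin (n + 1)} {u : V} {J X : Gr (V ⊕ Fin 4) (n + 1)}

/-- The distinct half-edges at the vertex of `u`. -/
theorem hu3 (hu : G.r u ≠ u) : G.r (G.r u) ≠ u ∧ G.r (G.r u) ≠ G.r u :=
  ⟨fun h => hu (G.r2 h), G.inner_r hu⟩

theorem leg_ne_vt (hu : G.r u ≠ u) (i : Fin n) : G.leg i ≠ u ∧ G.leg i ≠ G.r u ∧
    G.leg i ≠ G.r (G.r u) := by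
  have h := G.leg_not_vt hu i
  exact ⟨fun h' => h (Or.inl h'), fun h' => h (Or.inr (Or.inl h')),
    fun h' => h (Or.inr (Or.inr h'))⟩

theorem ne_of_not_vt {v : V} (hv : ¬ G.vt u v) : v ≠ u ∧ v ≠ G.r u ∧ v ≠ G.r (G.r u) ∧
    G.r v ≠ u ∧ G.r v ≠ G.r u ∧ G.r v ≠ G.r (G.r u) := by
  have hv' : ¬ G.vt u (G.r v) := fun h => hv (G.vt_r.1 h)
  exact ⟨fun h' => hv (Or.inl h'), fun h' => hv (Or.inr (Or.inl h')),
    fun h' => hv (Or.inr (Or.inr h')), fun h' => hv' (Or.inl h'), fun h' => hv' (Or.inr (Or.inl h')),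
    fun h' => hv' (Or.inr (Or.inr h'))⟩

/-- The diagram `J`, the new vertex at the end `0`. -/
theorem loc1_J (hu : G.r u ≠ u) (h : Gr.Loc (add G j u) J X (Sum.inl u)) :
    ((add G j (G.r u)).flip (Sum.inr 0)).map (p1 u (G.r u)) = J := by
  obtain ⟨h2, h3⟩ := hu3 hu
  have q3 := G.r3 u
  have eA : (add G j u).e (Sum.inl u) = Sum.inr 0 := add_e_l G j u
  have j1 : J.r (Sum.inl u) = Sum.inl (G.r (G.r u)) := h.j1
  have j2 := h.j2
  have j3 := h.j3
  have j4 := h.j4
  have j5 := h.j5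
  have j6 := h.j6
  rw [eA, add_r_l, add_r_l, add_r_0] at j2
  rw [eA, add_r_0] at j3
  rw [eA, add_r_0, add_r_1] at j4
  rw [eA, add_r_0, add_r_1, add_r_l] at j5
  rw [eA, add_r_l] at j6
  refine Gr.map_eq (fun w => ?_) (fun w => ?_) fun i => ?_
  · rw [h.eJ, Gr.flip_e, ← Perm.mul_apply, p1_e, Perm.mul_apply]
  · rcases w with v | t
    · rw [fl_l]
      by_cases hv : G.vt u v
      · rcases hv with hv | hv | hv
        · rw [hv, p1_u hu, p1_v hu, j3]
        · rw [hv, p1_v hu, p1_o hu h2 h3, j1]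
        · rw [hv, q3, p1_o hu h2 h3, p1_u hu, j2]
      · obtain ⟨a1, a2, a3, a4, a5, a6⟩ := ne_of_not_vt hv
        rw [p1_o hu a1 a2, p1_o hu a4 a5]
        refine (h.oth _ ?_ ?_).1
        · rintro (h' | h' | h')
          · exact a1 (Sum.inl.inj h')
          · exact a2 (Sum.inl.inj h')
          · exact a3 (Sum.inl.inj h')
        · rw [eA]
          exact not_vt_l G j u v
    · fin_cases t
      · show J.r (p1 u (G.r u) (Sum.inr 0)) =
          p1 u (G.r u) (((add G j (G.r u)).flip (Sum.inr 0)).r (Sum.inr 0))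
        rw [fl_0, p1_r hu (by decide), p1_r hu (by decide), j4]
      · show J.r (p1 u (G.r u) (Sum.inr 1)) =
          p1 u (G.r u) (((add G j (G.r u)).flip (Sum.inr 0)).r (Sum.inr 1))
        rw [fl_1, p1_1 hu, p1_r hu (by decide), j6]
      · show J.r (p1 u (G.r u) (Sum.inr 2)) =
          p1 u (G.r u) (((add G j (G.r u)).flip (Sum.inr 0)).r (Sum.inr 2))
        rw [fl_2, p1_1 hu, p1_r hu (by decide), j5]
      · show J.r (p1 u (G.r u) (Sum.inr 3)) =
          p1 u (G.r u) (((add G j (G.r u)).flip (Sum.inr 0)).r (Sum.inr 3))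
        rw [fl_3, p1_r hu (by decide)]
        refine (h.oth _ ?_ ?_).1
        · rintro (h' | h' | h') <;> cases h'
        · rw [eA]
          exact not_vt_3 G j u
  · rw [h.lJ, Gr.flip_leg, add_leg G j (G.r u) u]
    rcases add_leg_cases G j u i with h' | ⟨k, h'⟩
    · rw [h', p1_r hu (by decide)]
    · obtain ⟨b1, b2, _⟩ := leg_ne_vt hu k
      rw [h', p1_o hu b1 b2]

/-- The diagram `X`, the new vertex at the end `0`. -/
theorem loc1_X (hu : G.r u ≠ u) (h : Gr.Loc (add G j u) J X (Sum.inl u)) :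
    (((add G j (G.r (G.r u))).flip (Sum.inr 0)).flip (Sum.inl u)).map (p1 u (G.r (G.r u))) =
      X := by
  obtain ⟨h2, h3⟩ := hu3 hu
  have q3 := G.r3 u
  have eA : (add G j u).e (Sum.inl u) = Sum.inr 0 := add_e_l G j u
  have x1 : X.r (Sum.inl u) = Sum.inl (G.r u) := h.x1
  have x2 := h.x2
  have x3 := h.x3
  have x4 := h.x4
  have x5 := h.x5
  have x6 := h.x6
  rw [eA, add_r_l, add_r_0] at x2
  rw [eA, add_r_0] at x3
  rw [eA, add_r_0, add_r_1] at x4
  rw [eA, add_r_0, add_r_1, add_r_l, add_r_l] at x5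
  rw [eA, add_r_l, add_r_l] at x6
  obtain ⟨f1, f2, f3, f4, f5⟩ := flu (G := G) (A := (add G j (G.r (G.r u))).flip (Sum.inr 0))
    (fl_l G j _) u
  refine Gr.map_eq (fun w => ?_) (fun w => ?_) fun i => ?_
  · rw [h.eX, Gr.flip_e, Gr.flip_e, ← Perm.mul_apply, p1_e, Perm.mul_apply]
  · rcases w with v | t
    · by_cases hv : G.vt u v
      · rcases hv with hv | hv | hv
        · rw [hv, f2, p1_u h2, p1_v h2, x3]
        · rw [hv, f3, p1_o h2 hu h3.symm, p1_u h2, x2]
        · rw [hv, f4, p1_v h2, p1_o h2 hu h3.symm, x1]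
      · obtain ⟨a1, a2, a3, a4, a5, a6⟩ := ne_of_not_vt hv
        rw [f1 v hv, p1_o h2 a1 a3, p1_o h2 a4 a6]
        refine (h.oth _ ?_ ?_).2
        · rintro (h' | h' | h')
          · exact a1 (Sum.inl.inj h')
          · exact a2 (Sum.inl.inj h')
          · exact a3 (Sum.inl.inj h')
        · rw [eA]
          exact not_vt_l G j u v
    · rw [f5]
      fin_cases t
      · show X.r (p1 u (G.r (G.r u)) (Sum.inr 0)) =
          p1 u (G.r (G.r u)) (((add G j (G.r (G.r u))).flip (Sum.inr 0)).r (Sum.inr 0))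
        rw [fl_0, p1_r h2 (by decide), p1_r h2 (by decide), x4]
      · show X.r (p1 u (G.r (G.r u)) (Sum.inr 1)) =
          p1 u (G.r (G.r u)) (((add G j (G.r (G.r u))).flip (Sum.inr 0)).r (Sum.inr 1))
        rw [fl_1, p1_1 h2, p1_r h2 (by decide), x6]
      · show X.r (p1 u (G.r (G.r u)) (Sum.inr 2)) =
          p1 u (G.r (G.r u)) (((add G j (G.r (G.r u))).flip (Sum.inr 0)).r (Sum.inr 2))
        rw [fl_2, p1_1 h2, p1_r h2 (by decide), x5]
      · show X.r (p1 u (G.r (G.r u)) (Sum.inr 3)) =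
          p1 u (G.r (G.r u)) (((add G j (G.r (G.r u))).flip (Sum.inr 0)).r (Sum.inr 3))
        rw [fl_3, p1_r h2 (by decide)]
        refine (h.oth _ ?_ ?_).2
        · rintro (h' | h' | h') <;> cases h'
        · rw [eA]
          exact not_vt_3 G j u
  · rw [h.lX, Gr.flip_leg, Gr.flip_leg, add_leg G j (G.r (G.r u)) u]
    rcases add_leg_cases G j u i with h' | ⟨k, h'⟩
    · rw [h', p1_r h2 (by decide)]
    · obtain ⟨b1, _, b3⟩ := leg_ne_vt hu k
      rw [h', p1_o h2 b1 b3]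

theorem not_vt1_l (h v : V) : ¬ (add G j h).vt (Sum.inr 1) (Sum.inl v) := by
  rintro (h1 | h1 | h1)
  · cases h1
  · have h2 : (Sum.inl v : V ⊕ Fin 4) = Sum.inr 2 := h1
    cases h2
  · have h2 : (Sum.inl v : V ⊕ Fin 4) = Sum.inr 0 := h1
    cases h2

theorem not_vt1_3 (h : V) : ¬ (add G j h).vt (Sum.inr 1) (Sum.inr 3) := by
  rintro (h1 | h1 | h1)
  · exact absurd (Sum.inr.inj h1) (by decide)
  · have h2 : (Sum.inr 3 : V ⊕ Fin 4) = Sum.inr 2 := h1
    exact absurd (Sum.inr.inj h2) (by decide)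
  · have h2 : (Sum.inr 3 : V ⊕ Fin 4) = Sum.inr 0 := h1
    exact absurd (Sum.inr.inj h2) (by decide)

/-- The diagram `J`, the new vertex at the end `1`. -/
theorem loc0_J (hu : G.r u ≠ u) (h : Gr.Loc (add G j (G.e u)) J X (Sum.inl u)) :
    (add G j (G.r (G.r u))).map (p0 u (G.r (G.r u))) = J := by
  obtain ⟨h2, h3⟩ := hu3 hu
  have q3 := G.r3 u
  have eA : (add G j (G.e u)).e (Sum.inl u) = Sum.inr 1 := by
    have h' := add_e_el G j (G.e u)
    rwa [G.e2] at h'
  have j1 : J.r (Sum.inl u) = Sum.inl (G.r (G.r u)) := h.j1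
  have j2 := h.j2
  have j3 := h.j3
  have j4 := h.j4
  have j5 := h.j5
  have j6 := h.j6
  rw [eA, add_r_l, add_r_l, add_r_1] at j2
  rw [eA, add_r_1] at j3
  rw [eA, add_r_1, add_r_2] at j4
  rw [eA, add_r_1, add_r_2, add_r_l] at j5
  rw [eA, add_r_l] at j6
  refine Gr.map_eq (fun w => ?_) (fun w => ?_) fun i => ?_
  · rw [h.eJ, ← Perm.mul_apply, p0_e, Perm.mul_apply]
  · rcases w with v | t
    · rw [add_r_l]
      by_cases hv : G.vt u v
      · rcases hv with hv | hv | hv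
        · rw [hv, p0_u h2, p0_o h2 hu h3.symm, j5]
        · rw [hv, p0_o h2 hu h3.symm, p0_v h2, j6]
        · rw [hv, q3, p0_v h2, p0_u h2, j4]
      · obtain ⟨a1, a2, a3, a4, a5, a6⟩ := ne_of_not_vt hv
        rw [p0_o h2 a1 a3, p0_o h2 a4 a6]
        refine (h.oth _ ?_ ?_).1
        · rintro (h' | h' | h')
          · exact a1 (Sum.inl.inj h')
          · exact a2 (Sum.inl.inj h')
          · exact a3 (Sum.inl.inj h')
        · rw [eA]
          exact not_vt1_l _ v
    · fin_cases t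
      · show J.r (p0 u (G.r (G.r u)) (Sum.inr 0)) =
          p0 u (G.r (G.r u)) ((add G j (G.r (G.r u))).r (Sum.inr 0))
        rw [add_r_0, p0_0 h2, p0_1 h2, j1]
      · show J.r (p0 u (G.r (G.r u)) (Sum.inr 1)) =
          p0 u (G.r (G.r u)) ((add G j (G.r (G.r u))).r (Sum.inr 1))
        rw [add_r_1, p0_1 h2, p0_r h2 (by decide) (by decide), j2]
      · show J.r (p0 u (G.r (G.r u)) (Sum.inr 2)) =
          p0 u (G.r (G.r u)) ((add G j (G.r (G.r u))).r (Sum.inr 2))
        rw [add_r_2, p0_0 h2, p0_r h2 (by decide) (by decide), j3]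
      · show J.r (p0 u (G.r (G.r u)) (Sum.inr 3)) =
          p0 u (G.r (G.r u)) ((add G j (G.r (G.r u))).r (Sum.inr 3))
        rw [add_r_3, p0_r h2 (by decide) (by decide)]
        refine (h.oth _ ?_ ?_).1
        · rintro (h' | h' | h') <;> cases h'
        · rw [eA]
          exact not_vt1_3 _
  · rw [h.lJ, add_leg G j (G.r (G.r u)) (G.e u)]
    rcases add_leg_cases G j (G.e u) i with h' | ⟨k, h'⟩
    · rw [h', p0_r h2 (by decide) (by decide)]
    · obtain ⟨b1, _, b3⟩ := leg_ne_vt hu k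
      rw [h', p0_o h2 b1 b3]

/-- The diagram `X`, the new vertex at the end `1`. -/
theorem loc0_X (hu : G.r u ≠ u) (h : Gr.Loc (add G j (G.e u)) J X (Sum.inl u)) :
    ((add G j (G.r u)).flip (Sum.inl u)).map (p0 u (G.r u)) = X := by
  obtain ⟨h2, h3⟩ := hu3 hu
  have q3 := G.r3 u
  have eA : (add G j (G.e u)).e (Sum.inl u) = Sum.inr 1 := by
    have h' := add_e_el G j (G.e u)
    rwa [G.e2] at h'
  have x1 : X.r (Sum.inl u) = Sum.inl (G.r u) := h.x1
  have x2 := h.x2
  have x3 := h.x3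
  have x4 := h.x4
  have x5 := h.x5
  have x6 := h.x6
  rw [eA, add_r_l, add_r_1] at x2
  rw [eA, add_r_1] at x3
  rw [eA, add_r_1, add_r_2] at x4
  rw [eA, add_r_1, add_r_2, add_r_l, add_r_l] at x5
  rw [eA, add_r_l, add_r_l] at x6
  obtain ⟨f1, f2, f3, f4, f5⟩ := flu (G := G) (A := add G j (G.r u)) (add_r_l G j _) u
  refine Gr.map_eq (fun w => ?_) (fun w => ?_) fun i => ?_
  · rw [h.eX, Gr.flip_e, ← Perm.mul_apply, p0_e, Perm.mul_apply]
  · rcases w with v | t
    · by_cases hv : G.vt u v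
      · rcases hv with hv | hv | hv
        · rw [hv, f2, p0_u hu, p0_o hu h2 h3, x5]
        · rw [hv, f3, p0_v hu, p0_u hu, x4]
        · rw [hv, f4, p0_o hu h2 h3, p0_v hu, x6]
      · obtain ⟨a1, a2, a3, a4, a5, a6⟩ := ne_of_not_vt hv
        rw [f1 v hv, p0_o hu a1 a2, p0_o hu a4 a5]
        refine (h.oth _ ?_ ?_).2
        · rintro (h' | h' | h')
          · exact a1 (Sum.inl.inj h')
          · exact a2 (Sum.inl.inj h')
          · exact a3 (Sum.inl.inj h')
        · rw [eA]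
          exact not_vt1_l _ v
    · rw [f5]
      fin_cases t
      · show X.r (p0 u (G.r u) (Sum.inr 0)) = p0 u (G.r u) ((add G j (G.r u)).r (Sum.inr 0))
        rw [add_r_0, p0_0 hu, p0_1 hu, x1]
      · show X.r (p0 u (G.r u) (Sum.inr 1)) = p0 u (G.r u) ((add G j (G.r u)).r (Sum.inr 1))
        rw [add_r_1, p0_1 hu, p0_r hu (by decide) (by decide), x2]
      · show X.r (p0 u (G.r u) (Sum.inr 2)) = p0 u (G.r u) ((add G j (G.r u)).r (Sum.inr 2))
        rw [add_r_2, p0_0 hu, p0_r hu (by decide) (by decide), x3]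
      · show X.r (p0 u (G.r u) (Sum.inr 3)) = p0 u (G.r u) ((add G j (G.r u)).r (Sum.inr 3))
        rw [add_r_3, p0_r hu (by decide) (by decide)]
        refine (h.oth _ ?_ ?_).2
        · rintro (h' | h' | h') <;> cases h'
        · rw [eA]
          exact not_vt1_3 _
  · rw [h.lX, Gr.flip_leg, add_leg G j (G.r u) (G.e u)]
    rcases add_leg_cases G j (G.e u) i with h' | ⟨k, h'⟩
    · rw [h', p0_r hu (by decide) (by decide)]
    · obtain ⟨b1, b2, _⟩ := leg_ne_vt hu k
      rw [h', p0_o hu b1 b2]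

end

end Pool.Agent.SWT41
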