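import Mathlib
import Pool.Agent.SWT41.AddLoc2
import Pool.Agent.SWT65.Stmts
import Pool.Agent.SWT80.AddK
import Pool.Agent.SWT80.Ops4

/-!
# The slide of a hair at the hub
-/

set_option autoImplicit false

namespace Pool.Agent.SWT41

open Equiv Pool.Agent.SWT80 Pool.Agent.SWT65

variable {V U M : Type} [AddCommGroup M] {n : ℕ}

theorem map_symm_self (G : Gr V n) (f : V ≃ U) : (G.map f).map f.symm = G := by
  refine Gr.map_eq (fun w => ?_) (fun w => ?_) fun i => ?_
  · obtain ⟨v, rfl⟩ := f.surjective w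
    rw [Gr.map_e, symm_apply_apply, symm_apply_apply]
  · obtain ⟨v, rfl⟩ := f.surjective w
    rw [Gr.map_r, symm_apply_apply, symm_apply_apply]
  · rw [Gr.map_leg, symm_apply_apply]

theorem map_self_symm (G : Gr U n) (f : V ≃ U) : (G.map f.symm).map f = G :=
  map_symm_self G f.symm

/-- Every graph with a leg at a vertex whose other two half-edges are not joined to each other
is obtained by adding this leg. -/
def ExAdd : Prop := ∀ (V : Type) (n : ℕ) (G : Gr V (n + 1)) (j : Fin (n + 1)),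
  G.r (G.e (G.leg j)) ≠ G.e (G.leg j) →
  G.e (G.r (G.e (G.leg j))) ≠ G.r (G.r (G.e (G.leg j))) →
  ∃ (U : Type) (K : Gr U n) (k : U) (f : U ⊕ Fin 4 ≃ V), (add K j k).map f = G

section

variable {W : (V : Type) → Gr V (n + 1 + 3) → M}

/-- The sum over the three half-edges of the hub. -/
theorem hub_sum (hs : ∀ (V : Type) [Finite V] (K : Gr V (n + 3)) (p : Fin (n + 1)),
      ∑ j : Fin 3, W _ (add K (Fin.castAdd 3 p) (K.leg (Fin.natAdd n j))) = 0)
    [Finite V] (G : Gr V n) (p : Fin (n + 1)) {u : V} (hu : G.r u ≠ u) :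
    at3 W _ (add G p u) (Sum.inl u) + at3 W _ (add G p (G.r u)) (Sum.inl u) +
      at3 W _ (add G p (G.r (G.r u))) (Sum.inl u) = 0 := by
  have h1 := hs V (G.cut u hu) p
  rw [Fin.sum_univ_three, Gr.cut_leg_0, Gr.cut_leg_1, Gr.cut_leg_2] at h1
  rw [at3_in _ (add_in G p _ hu), at3_in _ (add_in G p _ hu), at3_in _ (add_in G p _ hu),
    cut_add, cut_add, cut_add]
  exact h1

/-- The new vertex at the end `0`. -/
theorem slide1 (hW : Rel W) (hA : Alt3 W)
    (hs : ∀ (V : Type) [Finite V] (K : Gr V (n + 3)) (p : Fin (n + 1)),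
      ∑ j : Fin 3, W _ (add K (Fin.castAdd 3 p) (K.leg (Fin.natAdd n j))) = 0)
    [Finite V] {G : Gr V n} {p : Fin (n + 1)} {u : V} (hu : G.r u ≠ u)
    {J X : Gr (V ⊕ Fin 4) (n + 1)} (h : Gr.Loc (add G p u) J X (Sum.inl u)) :
    at3 W _ (add G p u) (Sum.inl u) = at3 W _ J (Sum.inr 1) - at3 W _ X (Sum.inr 1) := by
  have h0 := hub_sum hs G p hu
  have h2 := (hu3 hu).1
  have eJ := loc1_J hu h
  have eX := loc1_X hu h
  have nr : ∀ v, (add G p v).r (Sum.inr 0) ≠ Sum.inr 0 := fun v h' =>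
    absurd (Sum.inr.inj (h' : (Sum.inr 1 : V ⊕ Fin 4) = Sum.inr 0)) (by decide)
  have aJ : at3 W _ J (Sum.inr 1) = - at3 W _ (add G p (G.r u)) (Sum.inl u) := by
    rw [← eJ, ← p1_u (V := V) hu, at3_map hW, at3_flip hW hA _ (nr _)]
  have aX : at3 W _ X (Sum.inr 1) = at3 W _ (add G p (G.r (G.r u))) (Sum.inl u) := by
    rw [← eX, ← p1_u (V := V) h2, at3_map hW, at3_flip hW hA, at3_flip hW hA _ (nr _), neg_neg]
    rw [fl_l]
    exact fun h' => hu (Sum.inl.inj h')
  rw [aJ, aX]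
  have e1 : at3 W _ (add G p u) (Sum.inl u) = (at3 W _ (add G p u) (Sum.inl u) +
      at3 W _ (add G p (G.r u)) (Sum.inl u) + at3 W _ (add G p (G.r (G.r u))) (Sum.inl u)) -
      at3 W _ (add G p (G.r u)) (Sum.inl u) - at3 W _ (add G p (G.r (G.r u))) (Sum.inl u) := by
    abel
  rw [e1, h0, zero_sub]

/-- The new vertex at the end `1`. -/
theorem slide0 (hW : Rel W) (hA : Alt3 W)
    (hs : ∀ (V : Type) [Finite V] (K : Gr V (n + 3)) (p : Fin (n + 1)),
      ∑ j : Fin 3, W _ (add K (Fin.castAdd 3 p) (K.leg (Fin.natAdd n j))) = 0)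
    (hsg : ∀ (V : Type) [Finite V] (K : Gr V (n + 3)) (p : Fin (n + 1)) (h : V),
      W _ (add K (Fin.castAdd 3 p) (K.e h)) = - W _ (add K (Fin.castAdd 3 p) h))
    [Finite V] {G : Gr V n} {p : Fin (n + 1)} {u : V} (hu : G.r u ≠ u)
    {J X : Gr (V ⊕ Fin 4) (n + 1)} (h : Gr.Loc (add G p (G.e u)) J X (Sum.inl u)) :
    at3 W _ (add G p (G.e u)) (Sum.inl u) = at3 W _ J (Sum.inr 0) - at3 W _ X (Sum.inr 0) := by
  have h0 := hub_sum hs G p hu
  have h2 := (hu3 hu).1
  have eJ := loc0_J hu h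
  have eX := loc0_X hu h
  have aI : at3 W _ (add G p (G.e u)) (Sum.inl u) = - at3 W _ (add G p u) (Sum.inl u) := by
    rw [at3_in _ (add_in G p _ hu), at3_in _ (add_in G p _ hu), cut_add, cut_add]
    exact hsg V (G.cut u hu) p u
  have aJ : at3 W _ J (Sum.inr 0) = at3 W _ (add G p (G.r (G.r u))) (Sum.inl u) := by
    rw [← eJ, ← p0_u (V := V) h2, at3_map hW]
  have aX : at3 W _ X (Sum.inr 0) = - at3 W _ (add G p (G.r u)) (Sum.inl u) := by
    rw [← eX, ← p0_u (V := V) hu, at3_map hW, at3_flip hW hA]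
    exact fun h' => hu (Sum.inl.inj h')
  rw [aI, aJ, aX]
  have e1 : - at3 W _ (add G p u) (Sum.inl u) = - (at3 W _ (add G p u) (Sum.inl u) +
      at3 W _ (add G p (G.r u)) (Sum.inl u) + at3 W _ (add G p (G.r (G.r u))) (Sum.inl u)) +
      at3 W _ (add G p (G.r u)) (Sum.inl u) + at3 W _ (add G p (G.r (G.r u))) (Sum.inl u) := by
    abel
  rw [e1, h0]
  abel

/-- **The slide of a hair at the hub.** -/
theorem slide_of_add (hx : ExAdd) (hW : Rel W) (hA : Alt3 W)
    (hs : ∀ (V : Type) [Finite V] (K : Gr V (n + 3)) (p : Fin (n + 1)),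
      ∑ j : Fin 3, W _ (add K (Fin.castAdd 3 p) (K.leg (Fin.natAdd n j))) = 0)
    (hsg : ∀ (V : Type) [Finite V] (K : Gr V (n + 3)) (p : Fin (n + 1)) (h : V),
      W _ (add K (Fin.castAdd 3 p) (K.e h)) = - W _ (add K (Fin.castAdd 3 p) h)) : Slide W := by
  intro V _ I J X x h h' i hL hc hi
  have hv : I.e (I.leg i) = h' := by rw [← hi, I.e2]
  have hok := hL.ok
  have r3 := I.r3 (I.e x)
  -- the leg is at a vertex
  have n1 : I.r (I.e (I.leg i)) ≠ I.e (I.leg i) := by
    rw [hv]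
    rcases hc with ⟨_, c2⟩ | ⟨c1, _⟩
    · rw [c2]
      exact I.inner_r (I.inner_r hok.iy)
    · rw [c1]
      exact I.inner_r hok.iy
  have n2 : I.e (I.r (I.e (I.leg i))) ≠ I.r (I.r (I.e (I.leg i))) := by
    rw [hv]
    have y1 : I.r (I.e x) ≠ x := by
      intro h1
      rw [h1] at r3
      exact hok.yb r3.symm
    rcases hc with ⟨_, c2⟩ | ⟨c1, _⟩
    · rw [c2, r3, I.e2]
      exact fun h1 => y1 h1.symm
    · rw [c1, r3]
      intro h1
      rw [← I.e2 (I.r (I.r (I.e x))), h1, I.e2] at r3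
      have h2 : I.r x = I.e x := r3
      exact hok.ya h2.symm
  obtain ⟨U, K, k, f, hf⟩ := hx V n I i n1 n2
  have : Finite (U ⊕ Fin 4) := Finite.of_equiv V f.symm
  have : Finite U := Finite.of_injective (Sum.inl : U → U ⊕ Fin 4) Sum.inl_injective
  -- everything on the other set
  have hL' := hL.map f.symm
  have eI : I.map f.symm = add K i k := by rw [← hf, map_symm_self]
  rw [eI] at hL'
  have aI : at3 W V I x = at3 W _ (add K i k) (f.symm x) := by
    rw [← eI, at3_map hW]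
  have aJ : at3 W V J h = at3 W _ (J.map f.symm) (f.symm h) := (at3_map hW _ _ _).symm
  have aX : at3 W V X h = at3 W _ (X.map f.symm) (f.symm h) := (at3_map hW _ _ _).symm
  rw [aI, aJ, aX]
  have me : ∀ v, f.symm (I.e v) = (add K i k).e (f.symm v) := fun v => by
    rw [← eI, Gr.map_e]
  have mr : ∀ v, f.symm (I.r v) = (add K i k).r (f.symm v) := fun v => by
    rw [← eI, Gr.map_r]
  have ml : f.symm (I.leg i) = Sum.inr 3 := by
    have h1 : (I.map f.symm).leg i = f.symm (I.leg i) := Gr.map_leg _ _ _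
    rw [← h1, eI]
    exact addL_new K i
  have mh : f.symm h' = Sum.inr 2 := by
    rw [← hv, me, ml]
    rfl
  have mx : f.symm x = (add K i k).e (f.symm (I.e x)) := by rw [← me, I.e2]
  rcases hc with ⟨c1, c2⟩ | ⟨c1, c2⟩
  · -- the vertex is `(y, h, h')`
    have my : f.symm (I.e x) = Sum.inr 0 := by
      have h1 : I.e x = I.r h' := by rw [c2, r3]
      rw [h1, mr, mh]
      rfl
    rw [my] at mx
    have mx' : f.symm x = Sum.inl k := mx
    have mh2 : f.symm h = Sum.inr 1 := by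
      rw [c1, mr, my]
      rfl
    rw [mx'] at hL' ⊢
    rw [mh2]
    have hk : K.r k ≠ k := fun h1 => hL'.ok.ix (congrArg Sum.inl h1)
    exact slide1 hW hA hs hk hL'
  · have my : f.symm (I.e x) = Sum.inr 1 := by
      have h1 : I.e x = I.r (I.r h') := by rw [c1, r3]
      rw [h1, mr, mr, mh]
      rfl
    rw [my] at mx
    have mx' : f.symm x = Sum.inl (K.e k) := mx
    have mh2 : f.symm h = Sum.inr 0 := by
      rw [c2, mr, mr, my]
      rfl
    rw [mx'] at hL' ⊢
    rw [mh2]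
    obtain ⟨u, rfl⟩ : ∃ u, k = K.e u := ⟨K.e k, (K.e2 k).symm⟩
    rw [K.e2] at hL' ⊢
    have hk : K.r u ≠ u := fun h1 => hL'.ok.ix (congrArg Sum.inl h1)
    exact slide0 hW hA hs hsg hk hL'

end

end Pool.Agent.SWT41
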