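import Pool.Agent.SWT49.Rim

/-!
# The induced cyclic order of a subset
-/

set_option autoImplicit false

namespace Pool.Agent.SWT41

open Equiv Pool.Agent.SWT49

theorem sub_le {N : ℕ} {x y : Fin (N + 1)} (h : y ≤ x) : (x - y).val = x.val - y.val :=
  Fin.coe_sub_iff_le.2 h

theorem sub_lt {N : ℕ} {x y : Fin (N + 1)} (h : x < y) : (x - y).val = N + 1 + x.val - y.val :=
  Fin.coe_sub_iff_lt.2 h

/-- The successor in the cyclic order of a subset is the nearest element. -/
theorem dist_next {k N : ℕ} {a : Fin (k + 1) → Fin (N + 1)} (ha : StrictMono a)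
    (j i : Fin (k + 1)) (hij : i ≠ j) :
    (a (finRotate (k + 1) j) - a j).val ≤ (a i - a j).val := by
  have hjl := j.2
  have hil := i.2
  have haj := (a j).2
  have hai := (a i).2
  rcases Nat.lt_or_ge (j.val + 1) (k + 1) with h | h
  · have e1 : finRotate (k + 1) j = ⟨j.val + 1, h⟩ := by
      apply Fin.ext
      rw [c_val]
      exact Nat.mod_eq_of_lt h
    have h1 : a j < a (finRotate (k + 1) j) := by
      apply ha
      rw [e1]
      exact Nat.lt_succ_self _
    have h1' : (a j).val < (a (finRotate (k + 1) j)).val := h1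
    have hac := (a (finRotate (k + 1) j)).2
    rw [sub_le h1.le]
    rcases lt_or_gt_of_ne hij with h2 | h2
    · have h3 : a i < a j := ha h2
      rw [sub_lt h3]
      omega
    · have h3 : finRotate (k + 1) j ≤ i := by
        rw [e1]
        exact Nat.succ_le_of_lt h2
      have h4 : (a (finRotate (k + 1) j)).val ≤ (a i).val := ha.monotone h3
      have h5 : a j ≤ a i := (ha h2).le
      rw [sub_le h5]
      omega
  · have e1 : finRotate (k + 1) j = 0 := by
      apply Fin.ext
      rw [c_val]
      have : j.val + 1 = k + 1 := by omega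
      rw [this, Nat.mod_self]
      rfl
    have h2 : i < j := by
      rcases lt_or_gt_of_ne hij with h2 | h2
      · exact h2
      · have : j.val < i.val := h2
        omega
    have h3 : a i < a j := ha h2
    have h4 : a 0 ≤ a i := ha.monotone (Fin.zero_le i)
    have h5 : a 0 < a j := lt_of_le_of_lt h4 h3
    rw [e1, sub_lt h5, sub_lt h3]
    have h6 : (a 0).val ≤ (a i).val := h4
    omega

/-- A permutation which compares two increasing sequences up to a translation of the values is a
power of the rotation. -/
theorem rot_sort {k N : ℕ} {a b : Fin (k + 1) → Fin (N + 1)} (ha : StrictMono a)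
    (hb : StrictMono b) (u : Perm (Fin (k + 1))) (t : Fin (N + 1)) (h : ∀ j, b (u j) = a j + t) :
    ∃ l : ℕ, u = finRotate (k + 1) ^ l := by
  apply eq_pow
  intro j
  by_contra hne
  have hk : finRotate (k + 1) j ≠ j := by
    intro h1
    rw [h1] at hne
    have e : k = 0 := by
      by_contra hk0
      have h2 := congrArg Fin.val h1
      rw [c_val] at h2
      have h3 := j.2
      rcases Nat.lt_or_ge (j.val + 1) (k + 1) with h4 | h4
      · rw [Nat.mod_eq_of_lt h4] at h2
        omega
      · have h5 : j.val + 1 = k + 1 := by omega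
        rw [h5, Nat.mod_self] at h2
        omega
    apply hne
    apply Fin.ext
    have e1 := (u (finRotate (k + 1) j)).2
    have e2 := (finRotate (k + 1) (u j)).2
    omega
  obtain ⟨i, hi⟩ := u.surjective (finRotate (k + 1) (u j))
  have hi2 : i ≠ j := by
    rintro rfl
    -- the rotation has a fixed point
    have h2 := congrArg Fin.val hi
    rw [c_val] at h2
    have h3 := (u i).2
    rcases Nat.lt_or_ge ((u i).val + 1) (k + 1) with h4 | h4
    · rw [Nat.mod_eq_of_lt h4] at h2
      omega
    · have h5 : (u i).val + 1 = k + 1 := by omega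
      rw [h5, Nat.mod_self] at h2
      have h6 : k = 0 := by omega
      apply hk
      apply Fin.ext
      have e1 := i.2
      have e2 := (finRotate (k + 1) i).2
      omega
  have h1 := dist_next hb (u j) (u (finRotate (k + 1) j)) (fun h' => hk (u.injective h'))
  have h2 := dist_next ha j i hi2
  rw [← hi] at h1
  rw [h, h, h] at h1
  rw [add_sub_add_right_eq_sub, add_sub_add_right_eq_sub] at h1
  have h3 : (a i - a j).val = (a (finRotate (k + 1) j) - a j).val := le_antisymm h1 h2
  have h4 : a i - a j = a (finRotate (k + 1) j) - a j := Fin.ext h3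
  have h5 : a i = a (finRotate (k + 1) j) := sub_left_injective h4
  have h6 := ha.injective h5
  apply hne
  rw [← h6, hi]

theorem w0_val {m : ℕ} (j : Fin (m + 1)) : (w0 m j).val = m - j.val := by
  unfold w0
  rw [Fin.revPerm_apply, Fin.val_rev]
  omega

theorem w0_w0 {m : ℕ} (j : Fin (m + 1)) : w0 m (w0 m j) = j := by
  rw [← Perm.mul_apply, w0_mul_w0, Perm.one_apply]

theorem refl_sort {k N : ℕ} {a b : Fin (k + 1) → Fin (N + 1)} (ha : StrictMono a)
    (hb : StrictMono b) (u : Perm (Fin (k + 1))) (t : Fin (N + 1))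
    (h : ∀ j, b (u j) = w0 N (a j) + t) : ∃ l : ℕ, u = finRotate (k + 1) ^ l * w0 k := by
  have ha' : StrictMono fun j => w0 N (a (w0 k j)) := by
    intro i j hij
    have h1 : w0 k j < w0 k i := by
      rw [Fin.lt_def, w0_val, w0_val]
      have h2 : i.val < j.val := hij
      have := j.2
      omega
    have h2 : (a (w0 k j)).val < (a (w0 k i)).val := ha h1
    show w0 N (a (w0 k i)) < w0 N (a (w0 k j))
    rw [Fin.lt_def, w0_val, w0_val]
    have := (a (w0 k i)).2
    omega
  obtain ⟨l, hl⟩ := rot_sort ha' hb (u * w0 k) t (fun j => by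
    rw [Perm.mul_apply, h])
  refine ⟨l, ?_⟩
  rw [← hl, mul_assoc, w0_mul_w0, mul_one]

theorem rotate_pow {N : ℕ} (t : ℕ) :
    ∃ s : Fin (N + 1), ∀ x, (finRotate (N + 1) ^ t) x = x + s := by
  induction t with
  | zero => exact ⟨0, fun x => by rw [pow_zero, Perm.one_apply, add_zero]⟩
  | succ t ih =>
    obtain ⟨s, hs⟩ := ih
    exact ⟨s + 1, fun x => by rw [pow_succ', Perm.mul_apply, hs, finRotate_apply, add_assoc]⟩

end Pool.Agent.SWT41
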