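import Mathlib
import Pool.Agent.SWT41.Sort
import Pool.Agent.SWT80.Ops2
import Pool.Agent.SWT93.EvenStep

/-!
# The values on the wheels whose last three legs are joined
-/

set_option autoImplicit false

namespace Pool.Agent.SWT41

open Equiv Pool.Agent.SWT49 Pool.Agent.SWT80 Pool.Agent.SWT93

variable {V W M : Type} {n : ℕ}

/-! ### The order of the ordinary legs along the rim -/

/-- For a rim order of all the legs the first legs are in their order. -/
def Srt (R : Gr V (n + 1 + 3)) : Prop :=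
  ∃ h : Perm (Fin (n + 1 + 3)), Rim (h • R) ∧
    StrictMono fun j : Fin (n + 1) => h (Fin.castAdd 3 j)

/-- The wheels. -/
structure Whl (R : Gr V (n + 1 + 3)) : Prop where
  conn : GConn R
  card : Nat.card V = 4 * (n + 1 + 3)
  noch : NoCherry R

theorem srt_map (f : V ≃ W) (R : Gr V (n + 1 + 3)) : Srt (R.map f) ↔ Srt R := by
  unfold Srt
  have h1 : ∀ h : Perm (Fin (n + 1 + 3)), Rim (h • R.map f) ↔ Rim (h • R) := fun h => by
    rw [Gr.smul_map, rim_map]
  simp only [h1]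

theorem srt_flip (R : Gr V (n + 1 + 3)) (x : V) : Srt (R.flip x) ↔ Srt R := by
  unfold Srt
  have h1 : ∀ h : Perm (Fin (n + 1 + 3)), Rim (h • R.flip x) ↔ Rim (h • R) := fun h => by
    rw [Gr.smul_flip, rim_flip]
  simp only [h1]

/-- The first legs of `u • R`, with `u` acting on the last three positions only. -/
theorem srt_last {R : Gr V (n + 1 + 3)} (u : Perm (Fin 3)) (h : Srt R) :
    Srt (pq (1 : Perm (Fin (n + 1))) u • R) := by
  obtain ⟨k, h1, h2⟩ := h
  refine ⟨k * (pq (1 : Perm (Fin (n + 1))) u)⁻¹, ?_, ?_⟩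
  · rw [mul_smul, inv_smul_smul]
    exact h1
  · have h3 : (fun j : Fin (n + 1) => (k * (pq (1 : Perm (Fin (n + 1))) u)⁻¹) (Fin.castAdd 3 j)) =
        fun j : Fin (n + 1) => k (Fin.castAdd 3 j) := by
      funext j
      rw [Perm.mul_apply, pq_inv, pq_l, inv_one, Perm.one_apply]
    rw [h3]
    exact h2

theorem exists_srt [Finite V] {R : Gr V (n + 1 + 3)} (hR : Whl R) :
    ∃ g : Perm (Fin (n + 1)), Srt (pq g (1 : Perm (Fin 3)) • R) := by
  obtain ⟨h0, h1⟩ := exists_rim R hR.conn (by omega) hR.card hR.noch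
  have hinj : Function.Injective fun j : Fin (n + 1) => h0 (Fin.castAdd 3 j) :=
    h0.injective.comp (Fin.castAdd_injective _ _)
  obtain ⟨t, ht⟩ : ∃ t : Perm (Fin (n + 1)), StrictMono fun j => h0 (Fin.castAdd 3 (t j)) := by
    refine ⟨Tuple.sort fun j : Fin (n + 1) => h0 (Fin.castAdd 3 j), ?_⟩
    exact (Tuple.monotone_sort fun j : Fin (n + 1) => h0 (Fin.castAdd 3 j)).strictMono_of_injective
      (hinj.comp (Equiv.injective _))
  refine ⟨t⁻¹, h0 * (pq t⁻¹ 1)⁻¹, ?_, ?_⟩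
  · rw [mul_smul, inv_smul_smul]
    exact h1
  · have h3 : (fun j : Fin (n + 1) => (h0 * (pq t⁻¹ (1 : Perm (Fin 3)))⁻¹) (Fin.castAdd 3 j)) =
        fun j : Fin (n + 1) => h0 (Fin.castAdd 3 (t j)) := by
      funext j
      rw [Perm.mul_apply, pq_inv, pq_l, inv_inv]
    rw [h3]
    exact ht

theorem whl_smul {R : Gr V (n + 1 + 3)} (g : Perm (Fin (n + 1 + 3))) : Whl (g • R) ↔ Whl R := by
  constructor
  · exact fun h => ⟨(gconn_smul g).1 h.conn, h.card, (nocherry_smul g).1 h.noch⟩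
  · exact fun h => ⟨(gconn_smul g).2 h.conn, h.card, (nocherry_smul g).2 h.noch⟩

theorem whl_map (f : V ≃ W) {R : Gr V (n + 1 + 3)} (h : Whl R) : Whl (R.map f) :=
  ⟨(gconn_map f).2 h.conn, by rw [← Nat.card_congr f, h.card],
    fun i j hij => h.noch i j ((cherry_map f).1 hij)⟩

theorem whl_flip {R : Gr V (n + 1 + 3)} (x : V) (h : Whl R) : Whl (R.flip x) :=
  ⟨gconn_flip.2 h.conn, h.card, nocherry_flip h.noch⟩

theorem srt_unique [Finite V] {R : Gr V (n + 1 + 3)} (hR : Whl R) (h1 : Srt R)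
    {u : Perm (Fin (n + 1))} (h2 : Srt (pq u (1 : Perm (Fin 3)) • R)) :
    ∃ l : ℕ, u = finRotate (n + 1) ^ l ∨ u = finRotate (n + 1) ^ l * w0 n := by
  obtain ⟨h, a1, a2⟩ := h1
  obtain ⟨h', b1, b2⟩ := h2
  have hR1 : Whl (h • R) := (whl_smul h).2 hR
  have e1 : (h' * pq u (1 : Perm (Fin 3)) * h⁻¹) • (h • R) =
      h' • (pq u (1 : Perm (Fin 3)) • R) := by
    rw [mul_smul, inv_smul_smul, mul_smul]
  have h3 := rim_unique (m := n + 3) (G := h • R) hR1.conn (by omega) hR1.noch a1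
    (g := h' * pq u (1 : Perm (Fin 3)) * h⁻¹) (by rw [e1]; exact b1)
  obtain ⟨k, hk⟩ := h3
  have hinv : h⁻¹ * h = 1 := inv_mul_cancel h
  have key : ∀ j : Fin (n + 1), h' (Fin.castAdd 3 (u j)) =
      (h' * pq u (1 : Perm (Fin 3)) * h⁻¹) (h (Fin.castAdd 3 j)) := by
    intro j
    rw [← Perm.mul_apply, mul_assoc, hinv, mul_one, Perm.mul_apply, pq_l]
  obtain ⟨t, ht⟩ := rotate_pow (N := n + 3) k
  rcases hk with hk | hk
  · obtain ⟨l, hl⟩ := rot_sort (N := n + 3) a2 b2 u t (fun j => by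
      show h' (Fin.castAdd 3 (u j)) = _
      rw [key, hk]
      exact ht _)
    exact ⟨l, Or.inl hl⟩
  · obtain ⟨l, hl⟩ := refl_sort (N := n + 3) a2 b2 u t (fun j => by
      show h' (Fin.castAdd 3 (u j)) = _
      rw [key, hk]
      exact ht _)
    exact ⟨l, Or.inr hl⟩

end Pool.Agent.SWT41
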