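import Mathlib
import Pool.Agent.SWT41.Wh

/-!
# The values on the wheels: invariance, differences, alternation
-/

set_option autoImplicit false

namespace Pool.Agent.SWT41

open Equiv Pool.Agent.SWT49 Pool.Agent.SWT80 Pool.Agent.SWT93

variable {V W M : Type} [AddCommGroup M] {n : ℕ}

open Classical in
/-- The value on a wheel: the value is zero if the ordinary legs are in their order. -/
noncomputable def vW (c : (V : Type) → Gr V (n + 1) → Fin n → M) (V : Type)
    (R : Gr V (n + 1 + 3)) : M :=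
  if h : ∃ g : Perm (Fin (n + 1)), Srt (pq g (1 : Perm (Fin 3)) • R) then
    - intg (c V) (Classical.choose h) R.join
  else 0

variable {c : (V : Type) → Gr V (n + 1) → Fin n → M}

theorem vW_eq (hM : Half M) (hc : Form c) (hn : Even (n + 1)) [Finite V]
    {R : Gr V (n + 1 + 3)} (hR : Whl R) {g : Perm (Fin (n + 1))}
    (hg : Srt (pq g (1 : Perm (Fin 3)) • R)) : vW c V R = - intg (c V) g R.join := by
  have h : ∃ g : Perm (Fin (n + 1)), Srt (pq g (1 : Perm (Fin 3)) • R) := ⟨g, hg⟩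
  have h1 : vW c V R = - intg (c V) (Classical.choose h) R.join := dif_pos h
  rw [h1]
  have h2 := Classical.choose_spec h
  generalize Classical.choose h = g' at h2
  have hR1 : Whl (pq g (1 : Perm (Fin 3)) • R) := (whl_smul _).2 hR
  have e1 : pq (g' * g⁻¹) (1 : Perm (Fin 3)) • (pq g (1 : Perm (Fin 3)) • R) =
      pq g' (1 : Perm (Fin 3)) • R := by
    rw [← mul_smul, pq_mul, mul_one, inv_mul_cancel_right]
  obtain ⟨l, hl⟩ := srt_unique hR1 hg (u := g' * g⁻¹) (by rw [e1]; exact h2)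
  rcases hl with hl | hl
  · have h3 : g' = finRotate (n + 1) ^ l * g := by rw [← hl, inv_mul_cancel_right]
    rw [h3, hc.int_rot_pow]
  · have h3 : g' = finRotate (n + 1) ^ l * (w0 n * g) := by
      rw [← mul_assoc, ← hl, inv_mul_cancel_right]
    rw [h3, hc.int_rot_pow, (hc.isInt V).mul, int_w0 hM hc hn, zero_add]

theorem vW_map (hM : Half M) (hc : Form c) (hn : Even (n + 1)) [Finite V] (f : V ≃ W)
    {R : Gr V (n + 1 + 3)} (hR : Whl R) : vW c W (R.map f) = vW c V R := by
  have hW : Finite W := Finite.of_equiv V f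
  obtain ⟨g, hg⟩ := exists_srt hR
  have hg' : Srt (pq g (1 : Perm (Fin 3)) • R.map f) := by
    rw [Gr.smul_map, srt_map]
    exact hg
  rw [vW_eq hM hc hn hR hg, vW_eq hM hc hn (whl_map f hR) hg', ← Gr.join_map, hc.int_map]

theorem vW_flip (hM : Half M) (hc : Form c) (hn : Even (n + 1)) [Finite V]
    {R : Gr V (n + 1 + 3)} (hR : Whl R) {x : V} (hx : R.r x ≠ x) :
    vW c V (R.flip x) = - vW c V R := by
  obtain ⟨g, hg⟩ := exists_srt hR
  have hg' : Srt (pq g (1 : Perm (Fin 3)) • R.flip x) := by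
    rw [Gr.smul_flip, srt_flip]
    exact hg
  have hx' : ∀ j, x ≠ R.leg (Fin.natAdd (n + 1) j) := fun j => R.ne_leg hx _
  rw [vW_eq hM hc hn hR hg, vW_eq hM hc hn (whl_flip x hR) hg', Gr.join_flip R hx',
    hc.int_flip _ (by rw [R.join_r_o hx']; exact hx)]

/-- The difference for the exchange of two adjacent ordinary legs. -/
theorem vW_diff (hM : Half M) (hc : Form c) (hn : Even (n + 1)) [Finite V]
    {R : Gr V (n + 1 + 3)} (hR : Whl R) (i : Fin n) :
    vW c V R - vW c V (pq (s i) (1 : Perm (Fin 3)) • R) = c V R.join i := by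
  obtain ⟨g, hg⟩ := exists_srt hR
  have e1 : pq (g * s i) (1 : Perm (Fin 3)) • (pq (s i) (1 : Perm (Fin 3)) • R) =
      pq g (1 : Perm (Fin 3)) • R := by
    rw [← mul_smul, pq_mul, mul_one, mul_assoc, s_mul_s, mul_one]
  have e2 : s i • s i • R.join = R.join := by rw [← mul_smul, s_mul_s, one_smul]
  rw [vW_eq hM hc hn hR hg, vW_eq hM hc hn ((whl_smul _).2 hR) (g := g * s i)
    (by rw [e1]; exact hg), Gr.join_smul, (hc.isInt V).mul, e2, (hc.isInt V).sw,
    (hc.closed V).inv]
  abel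

/-- The permutations of the last three legs. -/
theorem vW_alt (hM : Half M) (hc : Form c) (hn : Even (n + 1)) [Finite V]
    {R : Gr V (n + 1 + 3)} (hR : Whl R) (u : Perm (Fin 3)) :
    vW c V (pq (1 : Perm (Fin (n + 1))) u • R) = ((Perm.sign u : ℤˣ) : ℤ) • vW c V R := by
  obtain ⟨g, hg⟩ := exists_srt hR
  have e1 : pq g (1 : Perm (Fin 3)) • (pq (1 : Perm (Fin (n + 1))) u • R) =
      pq (1 : Perm (Fin (n + 1))) u • (pq g (1 : Perm (Fin 3)) • R) := by
    rw [← mul_smul, ← mul_smul, pq_comm]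
  rw [vW_eq hM hc hn hR hg, vW_eq hM hc hn ((whl_smul _).2 hR) (g := g)
    (by rw [e1]; exact srt_last u hg)]
  rcases Gr.perm3_cases u with ⟨h1, h2⟩ | ⟨h1, h2⟩
  · rw [Gr.join_rot R h1, h2, Units.val_one, one_smul]
  · rw [Gr.join_swap R h1, h2, Units.val_neg, Units.val_one, neg_smul, one_smul,
      hc.int_flip _ R.join_in]

end Pool.Agent.SWT41
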