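import Mathlib
import Pool.Agent.SWT41.Val
import Pool.Agent.SWT80.Ops3

/-!
# The functional on the graphs with one loop and three special legs
-/

set_option autoImplicit false

namespace Pool.Agent.SWT41

open Equiv Pool.Agent.SWT80 Pool.Agent.SWT93
open Pool.Agent.SWT49 hiding GConn

variable {V W M : Type} [AddCommGroup M] {n : ℕ}

/-- Values on the wheels which are natural and antisymmetric extend to all the graphs. -/
def Ext1 (M : Type) [AddCommGroup M] (n : ℕ) : Prop :=
  ∀ v : (V : Type) → Gr V n → M,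
    (∀ (V W : Type) [Finite V] (f : V ≃ W) (G : Gr V n), GConn G → Nat.card V = 4 * n →
      NoCherry G → v W (G.map f) = v V G) →
    (∀ (V : Type) [Finite V] (G : Gr V n) (x : V), GConn G → Nat.card V = 4 * n →
      NoCherry G → G.r x ≠ x → v V (G.flip x) = - v V G) →
    ∃ F : (V : Type) → Gr V n → M, Rel F ∧
      (∀ (V : Type) [Finite V] (G : Gr V n), GConn G → Nat.card V = 4 * n → NoCherry G →
        F V G = v V G) ∧
      ∀ (V : Type) [Finite V] (G : Gr V n), ¬ (GConn G ∧ Nat.card V = 4 * n) → F V G = 0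

/-- A functional which vanishes on the wheels vanishes on the graphs with one loop. -/
def Uni1 (M : Type) [AddCommGroup M] (n : ℕ) : Prop :=
  ∀ F : (V : Type) → Gr V n → M, Rel F →
    (∀ (V : Type) [Finite V] (G : Gr V n), GConn G → Nat.card V = 4 * n → NoCherry G →
      F V G = 0) →
    ∀ (V : Type) [Finite V] (G : Gr V n), GConn G → Nat.card V = 4 * n → F V G = 0

/-- The functional on the graphs with one loop and three special legs. -/
structure Hub (c : (V : Type) → Gr V (n + 1) → Fin n → M)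
    (F : (V : Type) → Gr V (n + 1 + 3) → M) : Prop where
  rel : Rel F
  off : ∀ (V : Type) [Finite V] (R : Gr V (n + 1 + 3)),
    ¬ (GConn R ∧ Nat.card V = 4 * (n + 1 + 3)) → F V R = 0
  alt : ∀ (V : Type) [Finite V] (R : Gr V (n + 1 + 3)) (u : Perm (Fin 3)),
    F V (pq (1 : Perm (Fin (n + 1))) u • R) = ((Perm.sign u : ℤˣ) : ℤ) • F V R
  diff : ∀ (V : Type) [Finite V] (R : Gr V (n + 1 + 3)), GConn R →
    Nat.card V = 4 * (n + 1 + 3) → ∀ i : Fin n,
    F V R - F V (pq (s i) (1 : Perm (Fin 3)) • R) = c V R.join i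
  wheel : ∀ (V : Type) [Finite V] (R : Gr V (n + 1 + 3)), Whl R → F V R = vW c V R

/-- A permutation of the legs of a functional. -/
theorem rel_smul {k : ℕ} {F : (V : Type) → Gr V k → M} (hF : Rel F) (g : Perm (Fin k)) :
    Rel fun (V : Type) (G : Gr V k) => F V (g • G) := by
  refine ⟨fun V W _ f G => ?_, fun V _ G x hx => ?_, fun V _ I J X x hx => ?_⟩
  · rw [Gr.smul_map]
    exact hF.iso V W f _
  · rw [Gr.smul_flip]
    exact hF.as V _ x hx
  · exact hF.ihx V _ _ _ x (hx.smul g)

theorem rel_sub {k : ℕ} {F F' : (V : Type) → Gr V k → M} (hF : Rel F) (hF' : Rel F') :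
    Rel fun (V : Type) (G : Gr V k) => F V G - F' V G := by
  refine ⟨fun V W _ f G => ?_, fun V _ G x hx => ?_, fun V _ I J X x hx => ?_⟩
  · rw [hF.iso V W f G, hF'.iso V W f G]
  · rw [hF.as V G x hx, hF'.as V G x hx]
    abel
  · rw [hF.ihx V I J X x hx, hF'.ihx V I J X x hx]
    abel

theorem rel_zsmul {k : ℕ} {F : (V : Type) → Gr V k → M} (hF : Rel F) (z : ℤ) :
    Rel fun (V : Type) (G : Gr V k) => z • F V G := by
  refine ⟨fun V W _ f G => ?_, fun V _ G x hx => ?_, fun V _ I J X x hx => ?_⟩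
  · rw [hF.iso V W f G]
  · rw [hF.as V G x hx, smul_neg]
  · rw [hF.ihx V I J X x hx, smul_sub]

/-- The differences of a form at the graph whose last three legs are joined. -/
theorem rel_form {c : (V : Type) → Gr V (n + 1) → Fin n → M} (hc : Form c) (i : Fin n) :
    Rel fun (V : Type) (R : Gr V (n + 1 + 3)) => c V R.join i := by
  refine ⟨fun V W _ f R => ?_, fun V _ R x hx => ?_, fun V _ I J X x hx => ?_⟩
  · rw [← Gr.join_map, hc.iso]
  · have hx' : ∀ j, x ≠ R.leg (Fin.natAdd (n + 1) j) := fun j => R.ne_leg hx _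
    rw [Gr.join_flip R hx']
    exact hc.as V R.join x (by rw [R.join_r_o hx']; exact hx) i
  · exact hc.ihx V _ _ _ x hx.join i

/-- **The functional on the graphs with one loop and three special legs.** -/
theorem exists_hub (hM : Half M) {c : (V : Type) → Gr V (n + 1) → Fin n → M} (hc : Form c)
    (hn : Even (n + 1)) (hE : Ext1 M (n + 1 + 3)) (hU : Uni1 M (n + 1 + 3)) :
    ∃ F : (V : Type) → Gr V (n + 1 + 3) → M, Hub c F := by
  obtain ⟨F, hF, hw, h0⟩ := hE (vW c)
    (fun V W _ f G h1 h2 h3 => vW_map hM hc hn f ⟨h1, h2, h3⟩)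
    (fun V _ G x h1 h2 h3 hx => vW_flip hM hc hn ⟨h1, h2, h3⟩ hx)
  refine ⟨F, hF, h0, ?_, ?_, fun V _ R hR => hw V R hR.conn hR.card hR.noch⟩
  · intro V _ R u
    by_cases hR : GConn R ∧ Nat.card V = 4 * (n + 1 + 3)
    · have h1 := hU _ (rel_sub (rel_smul hF (pq (1 : Perm (Fin (n + 1))) u))
        (rel_zsmul hF ((Perm.sign u : ℤˣ) : ℤ))) (fun V _ G h1 h2 h3 => by
          have hG : Whl G := ⟨h1, h2, h3⟩
          have hG' := (whl_smul (pq (1 : Perm (Fin (n + 1))) u)).2 hG
          show F V _ - _ • F V G = 0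
          rw [hw V G h1 h2 h3, hw V _ hG'.conn hG'.card hG'.noch, vW_alt hM hc hn hG, sub_self])
        V R hR.1 hR.2
      exact sub_eq_zero.1 h1
    · rw [h0 V R hR, smul_zero]
      apply h0
      rintro ⟨h1, h2⟩
      exact hR ⟨(gconn_smul _).1 h1, h2⟩
  · intro V _ R h1 h2 i
    have h3 := hU _ (rel_sub (rel_sub hF (rel_smul hF (pq (s i) (1 : Perm (Fin 3)))))
      (rel_form hc i)) (fun V _ G h1 h2 h3 => by
        have hG : Whl G := ⟨h1, h2, h3⟩
        have hG' := (whl_smul (pq (s i) (1 : Perm (Fin 3)))).2 hG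
        show F V G - F V _ - c V G.join i = 0
        rw [hw V G h1 h2 h3, hw V _ hG'.conn hG'.card hG'.noch, vW_diff hM hc hn hG, sub_self])
      V R h1 h2
    exact sub_eq_zero.1 h3

end Pool.Agent.SWT41
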