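import Mathlib
import Pool.Agent.SWT41.M3
import Pool.Agent.SWT65.Stmts

/-!
# Module M3 in the form of the interface
-/

set_option autoImplicit false

namespace Pool.Agent.SWT41

open Equiv Pool.Agent.SWT80 Pool.Agent.SWT93
open Pool.Agent.SWT49 hiding GConn

variable {M : Type} [AddCommGroup M]

theorem ext1_of (hE : SWT65.S_ext M) {n : ℕ} (h3 : 3 ≤ n) (hn : ¬ 3 ∣ n) : Ext1 M n := by
  intro v h1 h2
  obtain ⟨F, hF, hw, h0⟩ := hE n h3 hn v ⟨fun V W _ f G hG hno => h1 V W f G hG.conn hG.card hno,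
    fun V _ G x hG hno hx => h2 V G x hG.conn hG.card hno hx⟩
  exact ⟨F, hF, fun V _ G c1 c2 c3 => hw V G ⟨c1, c2⟩ c3,
    fun V _ G hG => h0 V G fun h => hG ⟨h.conn, h.card⟩⟩

theorem uni1_of (hU : SWT65.S_uniq M) {n : ℕ} (h3 : 3 ≤ n) : Uni1 M n := by
  intro F hF h1 V _ G c1 c2
  exact hU n h3 V (F V) (fun I J X x hx _ => hF.ihx V I J X x hx)
    (fun G hG hno => h1 V G hG.conn hG.card hno) G ⟨c1, c2⟩

/-- **M3.** -/
theorem s_hub (hM : Half M) (hE : SWT65.S_ext M) (hU : SWT65.S_uniq M) : SWT65.S_hub M := by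
  intro n h4 he h1 c hc
  obtain ⟨F, hF⟩ := exists_hub hM hc he (ext1_of hE (by omega) (by omega))
    (uni1_of hU (by omega))
  exact ⟨F, hF.rel, fun V _ R hR => hF.off V R fun h => hR ⟨h.1, h.2⟩, hF.alt,
    fun V _ R i hR => hF.diff V R hR.conn hR.card i⟩

theorem half_of3 (h3 : ∀ m : M, m + m + m = 0) : Half M where
  ex v := ⟨-v, by
    have h := h3 v
    have e : -v + -v = v - (v + v + v) := by abel
    rw [e, h, sub_zero]⟩
  uniq v h := by
    have h1 := h3 v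
    rw [h, zero_add] at h1
    exact h1

/-- **M3.** -/
theorem s_hub3 (h3 : ∀ m : M, m + m + m = 0) (hE : SWT65.S_ext M) (hU : SWT65.S_uniq M) :
    SWT65.S_hub M := s_hub (half_of3 h3) hE hU

end Pool.Agent.SWT41
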