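import Mathlib
import Pool.Agent.SWT41.AddLoc2
import Pool.Agent.SWT36.LocShape
import Pool.Agent.SWT84.Cy

/-!
# Kirchhoff's law for a new leg
-/

set_option autoImplicit false

namespace Pool.Agent.SWT41

open Equiv Pool.Agent.SWT80 Pool.Agent.SWT65

variable {V M : Type} [AddCommGroup M] {n : ℕ}

/-- The exchange of the two half-edges `0` and `1` of the vertex of the new leg. -/
def t01 (V : Type) : Perm (V ⊕ Fin 4) := Equiv.sumCongr (Equiv.refl V) (swap 0 1)

theorem t01_l (v : V) : t01 V (Sum.inl v) = Sum.inl v := rfl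

theorem t01_0 : t01 V (Sum.inr 0) = Sum.inr 1 := rfl

theorem t01_1 : t01 V (Sum.inr 1) = Sum.inr 0 := rfl

theorem t01_2 : t01 V (Sum.inr 2) = Sum.inr 2 := rfl

theorem t01_3 : t01 V (Sum.inr 3) = Sum.inr 3 := rfl

/-- The other half of the edge. -/
theorem add_map_t01 (G : Gr V n) (j : Fin (n + 1)) (h : V) :
    (add G j (G.e h)).map (t01 V) = (add G j h).flip (Sum.inr 0) := by
  refine Gr.map_eq (fun w => ?_) (fun w => ?_) fun i => ?_
  · rw [Gr.flip_e]
    rcases w with v | t
    · rw [t01_l]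
      by_cases h1 : v = h
      · subst h1
        have h2 := add_e_el G j (G.e v)
        rw [G.e2] at h2
        rw [h2, add_e_l, t01_1]
      by_cases h2 : v = G.e h
      · subst h2
        rw [add_e_el, add_e_l, t01_0]
      rw [add_e_o G j h h1 h2, add_e_o G j _ h2 (by rw [G.e2]; exact h1), t01_l]
    · fin_cases t
      · show (add G j h).e (Sum.inr 1) = t01 V ((add G j (G.e h)).e (Sum.inr 0))
        rw [add_e_1, add_e_0, t01_l]
      · show (add G j h).e (Sum.inr 0) = t01 V ((add G j (G.e h)).e (Sum.inr 1))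
        rw [add_e_1, add_e_0, t01_l, G.e2]
      · show (add G j h).e (Sum.inr 2) = t01 V ((add G j (G.e h)).e (Sum.inr 2))
        rw [add_e_2, add_e_2, t01_3]
      · show (add G j h).e (Sum.inr 3) = t01 V ((add G j (G.e h)).e (Sum.inr 3))
        rw [add_e_3, add_e_3, t01_2]
  · rcases w with v | t
    · rw [t01_l, fl_l, add_r_l, t01_l]
    · fin_cases t
      · show ((add G j h).flip (Sum.inr 0)).r (Sum.inr 1) =
          t01 V ((add G j (G.e h)).r (Sum.inr 0))
        rw [fl_1, add_r_0, t01_1]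
      · show ((add G j h).flip (Sum.inr 0)).r (Sum.inr 0) =
          t01 V ((add G j (G.e h)).r (Sum.inr 1))
        rw [fl_0, add_r_1, t01_2]
      · show ((add G j h).flip (Sum.inr 0)).r (Sum.inr 2) =
          t01 V ((add G j (G.e h)).r (Sum.inr 2))
        rw [fl_2, add_r_2, t01_0]
      · show ((add G j h).flip (Sum.inr 0)).r (Sum.inr 3) =
          t01 V ((add G j (G.e h)).r (Sum.inr 3))
        rw [fl_3, add_r_3, t01_3]
  · rw [Gr.flip_leg, add_leg G j h (G.e h)]
    rcases add_leg_cases G j (G.e h) i with h' | ⟨k, h'⟩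
    · rw [h', t01_3]
    · rw [h', t01_l]

theorem nr0 (G : Gr V n) (j : Fin (n + 1)) (h : V) : (add G j h).r (Sum.inr 0) ≠ Sum.inr 0 :=
  fun h' => absurd (Sum.inr.inj (h' : (Sum.inr 1 : V ⊕ Fin 4) = Sum.inr 0)) (by decide)

section

variable {F : (V : Type) → Gr V (n + 1) → M} (hF : Rel F) [Finite V]

include hF

/-- The new leg at the other side of the edge. -/
theorem add_neg (G : Gr V n) (j : Fin (n + 1)) (h : V) :
    F _ (add G j (G.e h)) = - F _ (add G j h) := by
  rw [← hF.iso _ _ (t01 V) (add G j (G.e h)), add_map_t01, hF.as _ _ _ (nr0 G j h)]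

/-- The new leg at the three edges of a vertex. -/
theorem add_around (G : Gr V n) (j : Fin (n + 1)) {u : V} (hu : G.r u ≠ u) :
    F _ (add G j u) + F _ (add G j (G.r u)) + F _ (add G j (G.r (G.r u))) = 0 := by
  have hok : Gr.Ok (add G j u) (Sum.inl u) := by
    refine ⟨fun h' => hu (Sum.inl.inj h'), ?_, ?_, ?_⟩
    · rw [add_e_l]
      exact nr0 G j u
    · rw [add_e_l]
      exact Sum.inr_ne_inl
    · rw [add_e_l]
      exact Sum.inr_ne_inl
  obtain ⟨J, X, hL⟩ := SWT36.exists_loc hok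
  have h1 := hF.ihx _ _ _ _ _ hL
  rw [← loc1_J hu hL, ← loc1_X hu hL, hF.iso, hF.iso, hF.as _ _ _ (nr0 G j _),
    hF.as _ _ (Sum.inl u), hF.as _ _ _ (nr0 G j _)] at h1
  · rw [h1]
    abel
  · rw [fl_l]
    exact fun h' => hu (Sum.inl.inj h')

/-- **Kirchhoff's law for a new leg.** -/
theorem add_kirchhoff (h2 : ∀ m : M, m + m = 0 → m = 0) (G : Gr V n) (j : Fin (n + 1)) :
    ∑ i, F _ (add G j (G.leg i)) = 0 := by
  classical
  have : Fintype V := Fintype.ofFinite V
  obtain ⟨Q, hQ⟩ := SWT58.exists_rep G.r G.r3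
  have h3 := SWT84.sum_vertices G hQ fun v => F _ (add G j v)
  have h4 : ∑ v ∈ Q, (F _ (add G j v) + F _ (add G j (G.r v)) + F _ (add G j (G.r (G.r v)))) =
      0 := Finset.sum_eq_zero fun v hv => add_around hF G j (hQ.nf v hv)
  rw [h4, zero_add] at h3
  rw [← h3]
  apply h2
  have h5 : ∑ v, F _ (add G j (G.e v)) = ∑ v, F _ (add G j v) :=
    Equiv.sum_comp G.e fun v => F _ (add G j v)
  nth_rewrite 1 [← h5]
  rw [← Finset.sum_add_distrib]
  exact Finset.sum_eq_zero fun v _ => by rw [add_neg hF, neg_add_cancel]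

end

end Pool.Agent.SWT41
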