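import Mathlib
import Pool.Agent.SWT41.Slide
import Pool.Agent.SWT41.AddK
import Pool.Agent.SWT82.AddKir

/-!
# Module M4 from the existence of the representation by a new leg
-/

set_option autoImplicit false

namespace Pool.Agent.SWT41

open Equiv Pool.Agent.SWT80 Pool.Agent.SWT65

variable {M : Type} [AddCommGroup M] {n : ℕ}

theorem alt3_of_hub {c : (V : Type) → Gr V (n + 1) → Fin n → M}
    {W : (V : Type) → Gr V (n + 1 + 3) → M} (hW : SWT65.Hub c W) : Alt3 W where
  s0 V _ R := by
    rw [hW.alt, Perm.sign_swap (by decide), Units.val_neg, Units.val_one, neg_smul, one_smul]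
  s1 V _ R := by
    rw [hW.alt, Perm.sign_swap (by decide), Units.val_neg, Units.val_one, neg_smul, one_smul]

/-- **M4.** -/
theorem s_slide_of (h2 : ∀ m : M, m + m = 0 → m = 0) (hx : ExAdd) : S_slide M := by
  intro n _ _ _ F₀ hF₀ _ W hW
  refine slide_of_add hx hW.rel (alt3_of_hub hW) (fun V _ K p => ?_)
    (fun V _ K p h => add_neg (n := n + 3) hW.rel K (Fin.castAdd 3 p) h)
  by_cases hK : SWT65.One K
  · exact SWT82.slide_add h2 hF₀ hW K hK p
  · exact Finset.sum_eq_zero fun j _ => hW.off _ _ fun h => hK (one_add3.1 h)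

end Pool.Agent.SWT41
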