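import Mathlib
import Pool.Agent.SWT41.SSlide

/-!
# A graph with a leg at a vertex is obtained by adding this leg
-/

set_option autoImplicit false

namespace Pool.Agent.SWT41

open Equiv Pool.Agent.SWT80 Pool.Agent.SWT65

/-- The frame: `p2` is the half-edge at the vertex of the leg `p3`, the vertex is `(p0, p1, p2)`. -/
structure Fr {V : Type} {n : ℕ} (G : Gr V (n + 1)) (j : Fin (n + 1)) (p0 p1 p2 p3 : V) : Prop where
  l3 : G.leg j = p3
  e3 : G.e p3 = p2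
  e2 : G.e p2 = p3
  r2 : G.r p2 = p0
  r0 : G.r p0 = p1
  r1 : G.r p1 = p2
  r3 : G.r p3 = p3
  n01 : p0 ≠ p1
  n02 : p0 ≠ p2
  n12 : p1 ≠ p2
  n03 : p0 ≠ p3
  n13 : p1 ≠ p3
  n23 : p2 ≠ p3
  ne : G.e p0 ≠ p1

variable {V : Type} {n : ℕ} {G : Gr V (n + 1)} {j : Fin (n + 1)} {p0 p1 p2 p3 : V}

/-- The half-edges which are not at the new leg. -/
def Old (p0 p1 p2 p3 v : V) : Prop := v ≠ p0 ∧ v ≠ p1 ∧ v ≠ p2 ∧ v ≠ p3

theorem old_e (h : Fr G j p0 p1 p2 p3) {v : V} (hv : Old p0 p1 p2 p3 v) (h0 : v ≠ G.e p0)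
    (h1 : v ≠ G.e p1) : Old p0 p1 p2 p3 (G.e v) := by
  refine ⟨fun h' => h0 ?_, fun h' => h1 ?_, fun h' => hv.2.2.2 ?_, fun h' => hv.2.2.1 ?_⟩
  · rw [← h', G.e2]
  · rw [← h', G.e2]
  · rw [← h.e2, ← h', G.e2]
  · rw [← h.e3, ← h', G.e2]

theorem old_r (h : Fr G j p0 p1 p2 p3) {v : V} (hv : Old p0 p1 p2 p3 v) :
    Old p0 p1 p2 p3 (G.r v) := by
  refine ⟨fun h' => hv.2.2.1 ?_, fun h' => hv.1 ?_, fun h' => hv.2.1 ?_, fun h' => hv.2.2.2 ?_⟩
  · exact G.r_inj (h'.trans h.r2.symm)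
  · exact G.r_inj (h'.trans h.r0.symm)
  · exact G.r_inj (h'.trans h.r1.symm)
  · exact G.r_inj (h'.trans h.r3.symm)

theorem old_q0 (h : Fr G j p0 p1 p2 p3) : Old p0 p1 p2 p3 (G.e p0) := by
  refine ⟨G.e1 _, h.ne, fun h' => ?_, fun h' => ?_⟩
  · exact h.n03 (by rw [← h.e2, ← h', G.e2])
  · exact h.n02 (by rw [← h.e3, ← h', G.e2])

theorem old_q1 (h : Fr G j p0 p1 p2 p3) : Old p0 p1 p2 p3 (G.e p1) := by
  refine ⟨fun h' => h.ne ?_, G.e1 _, fun h' => ?_, fun h' => ?_⟩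
  · rw [← h', G.e2]
  · exact h.n13 (by rw [← h.e2, ← h', G.e2])
  · exact h.n12 (by rw [← h.e3, ← h', G.e2])

theorem old_leg (h : Fr G j p0 p1 p2 p3) (i : Fin n) :
    Old p0 p1 p2 p3 (G.leg (j.succAbove i)) := by
  have h1 := G.r_leg (j.succAbove i)
  refine ⟨fun h' => ?_, fun h' => ?_, fun h' => ?_, fun h' => ?_⟩
  · rw [h', h.r0] at h1
    exact h.n01 h1.symm
  · rw [h', h.r1] at h1
    exact h.n12 h1.symm
  · rw [h', h.r2] at h1
    exact h.n02 h1
  · rw [← h.l3] at h'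
    exact Fin.succAbove_ne j i (G.inj h')

open Classical in
/-- The edges without the new leg. -/
noncomputable def kE (G : Gr V (n + 1)) (p0 p1 v : V) : V :=
  if v = G.e p0 then G.e p1 else if v = G.e p1 then G.e p0 else G.e v

theorem kE_0 : kE G p0 p1 (G.e p0) = G.e p1 := if_pos rfl

theorem kE_1 (h : p0 ≠ p1) : kE G p0 p1 (G.e p1) = G.e p0 :=
  (if_neg fun h' => h (G.e_inj h').symm).trans (if_pos rfl)

theorem kE_o {v : V} (h0 : v ≠ G.e p0) (h1 : v ≠ G.e p1) : kE G p0 p1 v = G.e v :=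
  (if_neg h0).trans (if_neg h1)

theorem kE2 (h : Fr G j p0 p1 p2 p3) {v : V} (hv : Old p0 p1 p2 p3 v) :
    kE G p0 p1 (kE G p0 p1 v) = v := by
  by_cases h0 : v = G.e p0
  · rw [h0, kE_0, kE_1 h.n01]
  by_cases h1 : v = G.e p1
  · rw [h1, kE_1 h.n01, kE_0]
  rw [kE_o h0 h1, kE_o, G.e2]
  · exact fun h' => hv.1 (G.e_inj h')
  · exact fun h' => hv.2.1 (G.e_inj h')

theorem kE_ne (h : Fr G j p0 p1 p2 p3) (v : V) : kE G p0 p1 v ≠ v := by
  by_cases h0 : v = G.e p0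
  · rw [h0, kE_0]
    exact fun h' => h.n01 (G.e_inj h').symm
  by_cases h1 : v = G.e p1
  · rw [h1, kE_1 h.n01]
    exact fun h' => h.n01 (G.e_inj h')
  rw [kE_o h0 h1]
  exact G.e1 v

theorem old_kE (h : Fr G j p0 p1 p2 p3) {v : V} (hv : Old p0 p1 p2 p3 v) :
    Old p0 p1 p2 p3 (kE G p0 p1 v) := by
  by_cases h0 : v = G.e p0
  · rw [h0, kE_0]
    exact old_q1 h
  by_cases h1 : v = G.e p1
  · rw [h1, kE_1 h.n01]
    exact old_q0 h
  rw [kE_o h0 h1]
  exact old_e h hv h0 h1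

/-- The graph without the new leg. -/
noncomputable def kG (h : Fr G j p0 p1 p2 p3) : Gr {v // Old p0 p1 p2 p3 v} n where
  e := ⟨fun v => ⟨kE G p0 p1 v.1, old_kE h v.2⟩, fun v => ⟨kE G p0 p1 v.1, old_kE h v.2⟩,
    fun v => Subtype.ext (kE2 h v.2), fun v => Subtype.ext (kE2 h v.2)⟩
  r := Gr.perm3 (fun v => ⟨G.r v.1, old_r h v.2⟩) fun v => Subtype.ext (G.r3 v.1)
  leg i := ⟨G.leg (j.succAbove i), old_leg h i⟩
  e2 v := Subtype.ext (kE2 h v.2)
  e1 v h' := kE_ne h v.1 (congrArg Subtype.val h')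
  r3 v := Subtype.ext (G.r3 v.1)
  inj i i' h' := Fin.succAbove_right_injective (G.inj (congrArg Subtype.val h'))
  fix v := by
    rw [Gr.perm3_apply]
    constructor
    · intro h'
      obtain ⟨i, hi⟩ := (G.fix v.1).1 (congrArg Subtype.val h')
      rcases Fin.eq_self_or_eq_succAbove j i with rfl | ⟨k, rfl⟩
      · exact absurd (hi.symm.trans h.l3) v.2.2.2.2
      · exact ⟨k, Subtype.ext hi⟩
    · rintro ⟨i, rfl⟩
      exact Subtype.ext (G.r_leg _)

/-- The half-edges. -/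
def kf (p0 p1 p2 p3 : V) : {v // Old p0 p1 p2 p3 v} ⊕ Fin 4 → V
  | Sum.inl v => v.1
  | Sum.inr 0 => p0
  | Sum.inr 1 => p1
  | Sum.inr 2 => p2
  | Sum.inr 3 => p3

theorem kf_bij (h : Fr G j p0 p1 p2 p3) : Function.Bijective (kf p0 p1 p2 p3) := by
  constructor
  · rintro (v | t) (w | t') h'
    · exact congrArg Sum.inl (Subtype.ext h')
    · exfalso
      have hv := v.2
      fin_cases t'
      · exact hv.1 h'
      · exact hv.2.1 h'
      · exact hv.2.2.1 h'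
      · exact hv.2.2.2 h'
    · exfalso
      have hv := w.2
      fin_cases t
      · exact hv.1 h'.symm
      · exact hv.2.1 h'.symm
      · exact hv.2.2.1 h'.symm
      · exact hv.2.2.2 h'.symm
    · fin_cases t <;> fin_cases t'
      · rfl
      · exact absurd h' h.n01
      · exact absurd h' h.n02
      · exact absurd h' h.n03
      · exact absurd h'.symm h.n01
      · rfl
      · exact absurd h' h.n12
      · exact absurd h' h.n13
      · exact absurd h'.symm h.n02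
      · exact absurd h'.symm h.n12
      · rfl
      · exact absurd h' h.n23
      · exact absurd h'.symm h.n03
      · exact absurd h'.symm h.n13
      · exact absurd h'.symm h.n23
      · rfl
  · intro v
    by_cases h0 : v = p0
    · exact ⟨Sum.inr 0, h0.symm⟩
    by_cases h1 : v = p1
    · exact ⟨Sum.inr 1, h1.symm⟩
    by_cases h2 : v = p2
    · exact ⟨Sum.inr 2, h2.symm⟩
    by_cases h3 : v = p3
    · exact ⟨Sum.inr 3, h3.symm⟩
    exact ⟨Sum.inl ⟨v, h0, h1, h2, h3⟩, rfl⟩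

theorem kG_map (h : Fr G j p0 p1 p2 p3) :
    (add (kG h) j ⟨G.e p0, old_q0 h⟩).map (Equiv.ofBijective _ (kf_bij h)) = G := by
  have ke0 : (kG h).e ⟨G.e p0, old_q0 h⟩ = ⟨G.e p1, old_q1 h⟩ := Subtype.ext kE_0
  refine Gr.map_eq (fun w => ?_) (fun w => ?_) fun i => ?_
  · rcases w with v | t
    · show G.e v.1 = kf p0 p1 p2 p3 ((add (kG h) j ⟨G.e p0, old_q0 h⟩).e (Sum.inl v))
      by_cases h0 : v = ⟨G.e p0, old_q0 h⟩
      · subst h0
        rw [add_e_l]
        exact G.e2 p0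
      by_cases h1 : v = ⟨G.e p1, old_q1 h⟩
      · subst h1
        have h2 := add_e_el (kG h) j ⟨G.e p0, old_q0 h⟩
        rw [ke0] at h2
        rw [h2]
        exact G.e2 p1
      rw [add_e_o _ _ _ h0 (by rw [ke0]; exact h1)]
      exact (kE_o (fun h' => h0 (Subtype.ext h')) fun h' => h1 (Subtype.ext h')).symm
    · fin_cases t
      · rfl
      · show G.e p1 = kf p0 p1 p2 p3 ((add (kG h) j ⟨G.e p0, old_q0 h⟩).e (Sum.inr 1))
        rw [add_e_1, ke0]
        rfl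
      · exact h.e2
      · exact h.e3
  · rcases w with v | t
    · rfl
    · fin_cases t
      · exact h.r0
      · exact h.r1
      · exact h.r2
      · exact h.r3
  · rcases Fin.eq_self_or_eq_succAbove j i with rfl | ⟨k, rfl⟩
    · show G.leg i = kf p0 p1 p2 p3 ((add (kG h) i ⟨G.e p0, old_q0 h⟩).leg i)
      have h1 : (add (kG h) i ⟨G.e p0, old_q0 h⟩).leg i = Sum.inr 3 := addL_new _ _
      rw [h1]
      exact h.l3
    · show G.leg (j.succAbove k) =
        kf p0 p1 p2 p3 ((add (kG h) j ⟨G.e p0, old_q0 h⟩).leg (j.succAbove k))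
      have h1 : (add (kG h) j ⟨G.e p0, old_q0 h⟩).leg (j.succAbove k) =
        Sum.inl ((kG h).leg k) := addL_old _ _ _
      rw [h1]
      rfl

/-- **A graph with a leg at a vertex is obtained by adding this leg.** -/
theorem exAdd : ExAdd := by
  intro V n G j hv hne
  have r3 := G.r3 (G.e (G.leg j))
  have hv2 := G.inner_r hv
  have hv3 := G.inner_r hv2
  rw [r3] at hv3
  have hlv : ∀ v, G.r v ≠ v → v ≠ G.leg j := fun v h h' => h (by rw [h', G.r_leg])
  have h : Fr G j (G.r (G.e (G.leg j))) (G.r (G.r (G.e (G.leg j)))) (G.e (G.leg j)) (G.leg j) :=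
    ⟨rfl, rfl, G.e2 _, rfl, rfl, r3, G.r_leg j, hv2.symm, hv, hv3.symm, hlv _ hv2,
      hlv _ (by rw [r3]; exact hv3), hlv _ hv, hne⟩
  exact ⟨_, kG h, _, _, kG_map h⟩

/-- **M4.** -/
theorem s_slide {M : Type} [AddCommGroup M] (h2 : ∀ m : M, m + m = 0 → m = 0) : S_slide M :=
  s_slide_of h2 exAdd

end Pool.Agent.SWT41
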